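import Pool.Agent.Y244.FPP.Win

set_option autoImplicit false

open MeasureTheory ProbabilityTheory Filter Topology
open scoped NNReal ENNReal

namespace Pool.Agent.Results.MP_79314c_pr.FailsAgainstAllFarPoints

open Pool.Agent.H588R3.FPP Pool.Agent.Y244.FPP

/-- One law of the edge weights, arbitrarily close to a given bounded law and with an arbitrarily
thin tail, for which in every dimension `d ≥ 2` and for every `n ≥ 1` the passage time to `n e₁`
is stochastically dominated by the passage time to `m e₁` for no `m ≥ 24 d n`; moreover all `m`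
in a finite range are beaten at the same height `t`. In particular (last clause) the sequence of
passage times is, in every dimension, not stochastically increasing from any index on. -/
theorem result : ∀ G : Measure ℝ≥0, IsProbabilityMeasure G →
    ∀ M : ℝ≥0, G (Set.Ioi M) = 0 → ∀ δ : ℝ, 0 < δ →
    ∀ g : ℝ≥0 → ℝ, Antitone g → (∀ x, 0 < g x) →
    ∃ F : Measure ℝ≥0, IsProbabilityMeasure F ∧ ENNReal.ofReal (1 - δ) • G ≤ F ∧
      (∀ x : ℝ≥0, M ≤ x → F (Set.Ioi x) ≤ ENNReal.ofReal (g x)) ∧
      (∀ a : ℝ, Integrable (fun x : ℝ≥0 => Real.exp (a * x)) F) ∧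
      ∀ d : ℕ, 2 ≤ d →
        (∀ n : ℕ, 1 ≤ n → ∀ W : ℕ, ∃ t : ℝ≥0, ∀ m : ℕ, 24 * d * n ≤ m → m ≤ W →
          law d F {τ | t < T τ (axis d 0) (axis d m)} <
            law d F {τ | t < T τ (axis d 0) (axis d n)}) ∧
        (∀ N : ℕ, ∃ n : ℕ, N ≤ n ∧ ∃ t : ℝ≥0,
          law d F {τ | t < T τ (axis d 0) (axis d (n + 1))} <
            law d F {τ | t < T τ (axis d 0) (axis d n)}) := by
  intro G hGp M hM δ hδ g hg hgpos
  -- the data of the level `k`
  let D : ℕ → ℕ := fun k => (Nat.unpair k).1 + 2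
  let n' : ℕ → ℕ := fun k => (Nat.unpair (Nat.unpair k).2).1 + 1
  let W' : ℕ → ℕ := fun k => (Nat.unpair (Nat.unpair k).2).2
  have hone := fun k : ℕ => one_level_win (d := D k) (by simp [D]) (n' k) (by simp [n']) (W' k)
  choose q₀ hq₀ hone using hone
  set c : ℕ → ℕ := fun k => (box (axis (D k) 0) (W' k + 2 * kap (D k) (n' k))).card with hc
  -- the scales
  let L : ℕ → ℝ≥0 := fun k => Nat.rec (M + 1) (fun k Lk => 2 * ((4 * (c k : ℝ≥0) + 4) * Lk)) k
  let V : ℕ → ℝ≥0 := fun k => (4 * (c k : ℝ≥0) + 4) * L k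
  have hL0 : L 0 = M + 1 := rfl
  have hLs : ∀ k, L (k + 1) = 2 * V k := fun k => rfl
  have hVd : ∀ k, V k = (4 * (c k : ℝ≥0) + 4) * L k := fun k => rfl
  have hfac : ∀ k, (1 : ℝ≥0) < 4 * (c k : ℝ≥0) + 4 := by
    intro k
    have : (1 : ℝ≥0) < 4 := by norm_num
    exact this.trans_le le_add_self
  have hLpos : ∀ k, M + 1 + k ≤ L k := by
    intro k
    induction k with
    | zero => rw [hL0]; simp
    | succ k ih =>
      rw [hLs, hVd]
      have h1 : L k ≤ (4 * (c k : ℝ≥0) + 4) * L k := le_mul_of_one_le_left (by positivity) (hfac k).le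
      have h3 : (1 : ℝ≥0) ≤ L k := le_trans (by rw [add_assoc]; refine le_trans ?_ le_add_self; exact le_self_add) ih
      rw [two_mul]
      push_cast
      calc M + 1 + ((k : ℝ≥0) + 1) = (M + 1 + k) + 1 := by ring
        _ ≤ L k + L k := add_le_add ih h3
        _ ≤ _ := add_le_add h1 h1
  have hLM : ∀ k, M < L k := fun k =>
    lt_of_lt_of_le (lt_of_lt_of_le (lt_add_of_pos_right _ one_pos) le_self_add) (hLpos k)
  have hLpos' : ∀ k, 0 < L k := fun k => lt_of_le_of_lt (by positivity) (hLM k)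
  have hVpos : ∀ k, 0 < V k := by
    intro k; rw [hVd]; exact mul_pos (by positivity) (hLpos' k)
  have hLV : ∀ k, L k < V k := by
    intro k; rw [hVd]; exact lt_mul_of_one_lt_left (hLpos' k) (hfac k)
  have hV2 : ∀ k, V k < 2 * V k := by
    intro k; rw [two_mul]; exact lt_add_of_pos_right _ (hVpos k)
  clear_value L V
  -- the probabilities
  let b : ℕ → ℝ := fun k => min (q₀ k / 2) (min (1 / 2) (min (g (2 * V k))
    ((1 / 2) ^ (2 * k + 1) * Real.exp (-(k : ℝ) * (2 * V k)))))
  have hb : ∀ k, 0 < b k := by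
    intro k
    refine lt_min (by have := hq₀ k; positivity) (lt_min (by norm_num) (lt_min (hgpos _) ?_))
    have := Real.exp_pos (-(k : ℝ) * (2 * V k))
    positivity
  let q : ℕ → ℝ := fun k => Nat.rec (min (b 0) δ) (fun k qk => min (b (k + 1)) (qk ^ 2)) k
  have hq0 : q 0 = min (b 0) δ := rfl
  have hqs : ∀ k, q (k + 1) = min (b (k + 1)) ((q k) ^ 2) := fun k => rfl
  clear_value q
  have hqpos : ∀ k, 0 < q k := by
    intro k
    induction k with
    | zero => rw [hq0]; exact lt_min (hb 0) hδ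
    | succ k ih => rw [hqs]; exact lt_min (hb _) (by positivity)
  have hqb : ∀ k, q k ≤ b k := by
    intro k
    cases k with
    | zero => rw [hq0]; exact min_le_left _ _
    | succ k => rw [hqs]; exact min_le_left _ _
  have hqh : ∀ k, q k ≤ 1 / 2 := fun k =>
    (hqb k).trans ((min_le_right _ _).trans (min_le_left _ _))
  have hqg : ∀ k, q k ≤ g (2 * V k) := fun k =>
    (hqb k).trans ((min_le_right _ _).trans ((min_le_right _ _).trans (min_le_left _ _)))
  have hqe : ∀ k, q k ≤ (1 / 2) ^ (2 * k + 1) * Real.exp (-(k : ℝ) * (2 * V k)) := fun k =>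
    (hqb k).trans ((min_le_right _ _).trans ((min_le_right _ _).trans (min_le_right _ _)))
  have hqq : ∀ k, q k < q₀ k := by
    intro k
    have h1 : q k ≤ q₀ k / 2 := (hqb k).trans (min_le_left _ _)
    have := hq₀ k
    linarith
  have hqsq : ∀ k, q (k + 1) ≤ (q k) ^ 2 := by
    intro k; rw [hqs]; exact min_le_right _ _
  -- the interleaved sequences
  let s : ℕ → ℝ := fun j => if Even j then q (j / 2) else 2 * (q (j / 2)) ^ 2
  let v : ℕ → ℝ≥0 := fun j => if Even j then V (j / 2) else 2 * V (j / 2)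
  have hs2 : ∀ k, s (2 * k) = q k := by intro k; simp [s]
  have hs21 : ∀ k, s (2 * k + 1) = 2 * (q k) ^ 2 := by
    intro k
    have h1 : ¬ Even (2 * k + 1) := by simp
    have h2 : (2 * k + 1) / 2 = k := by omega
    simp only [s, h1, if_false, h2]
  have hv2 : ∀ k, v (2 * k) = V k := by intro k; simp [v]
  have hv21 : ∀ k, v (2 * k + 1) = 2 * V k := by
    intro k
    have h1 : ¬ Even (2 * k + 1) := by simp
    have h2 : (2 * k + 1) / 2 = k := by omega
    simp only [v, h1, if_false, h2]
  clear_value s v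
  have hanti : Antitone s := by
    apply antitone_nat_of_succ_le
    intro j
    obtain ⟨k, hk | hk⟩ := Nat.even_or_odd' j
    · rw [hk, hs21, hs2]
      have := hqpos k
      have := hqh k
      nlinarith
    · rw [hk, hs21]
      have e : 2 * k + 1 + 1 = 2 * (k + 1) := by ring
      rw [e, hs2]
      have := hqsq k
      have := sq_nonneg (q k)
      linarith
  have hs0 : ∀ j, 0 ≤ s j := by
    intro j
    obtain ⟨k, hk | hk⟩ := Nat.even_or_odd' j
    · rw [hk, hs2]; exact (hqpos k).le
    · rw [hk, hs21]; positivity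
  have hsg : ∀ j, s j ≤ g (v j) := by
    intro j
    obtain ⟨k, hk | hk⟩ := Nat.even_or_odd' j
    · rw [hk, hs2, hv2]; exact (hqg k).trans (hg (hV2 k).le)
    · rw [hk, hs21, hv21]
      have h2 := hqpos k
      have h3 := hqh k
      have h4 : 2 * (q k) ^ 2 ≤ q k := by nlinarith
      exact h4.trans (hqg k)
  have hbound : ∀ j, s j ≤ (1 / 2) ^ j * Real.exp (-((j / 2 : ℕ) : ℝ) * v j) := by
    intro j
    obtain ⟨k, hk | hk⟩ := Nat.even_or_odd' j
    · have e : j / 2 = k := by omega
      rw [e, hk, hs2, hv2]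
      refine (hqe k).trans (mul_le_mul ?_ ?_ (Real.exp_pos _).le (by positivity))
      · exact pow_le_pow_of_le_one (by norm_num) (by norm_num) (by omega)
      · apply Real.exp_le_exp.2
        have h1 : (0 : ℝ) ≤ k := Nat.cast_nonneg k
        have h2 : (0 : ℝ) ≤ V k := (V k).coe_nonneg
        nlinarith [mul_nonneg h1 h2]
    · have e : j / 2 = k := by omega
      rw [e, hk, hs21, hv21]
      have h1 := hqe k
      have h2 := hqpos k
      have h3 := hqh k
      have h4 : 2 * (q k) ^ 2 ≤ q k := by nlinarith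
      refine h4.trans ?_
      push_cast
      exact h1
  have htend : Tendsto s atTop (𝓝 0) := by
    refine squeeze_zero hs0 (g := fun j => (1 / 2 : ℝ) ^ j) ?_
      (tendsto_pow_atTop_nhds_zero_of_lt_one (by norm_num) (by norm_num))
    intro j
    refine (hbound j).trans ?_
    apply mul_le_of_le_one_right (by positivity)
    rw [Real.exp_le_one_iff]
    have h1 : (0 : ℝ) ≤ ((j / 2 : ℕ) : ℝ) := Nat.cast_nonneg _
    have h2 : (0 : ℝ) ≤ v j := (v j).coe_nonneg
    nlinarith [mul_nonneg h1 h2]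
  have hvmono : StrictMono v := by
    apply strictMono_nat_of_lt_succ
    intro j
    obtain ⟨k, hk | hk⟩ := Nat.even_or_odd' j
    · rw [hk, hv21, hv2]; exact hV2 k
    · rw [hk, hv21]
      have e : 2 * k + 1 + 1 = 2 * (k + 1) := by ring
      rw [e, hv2, ← hLs]
      exact hLV (k + 1)
  have hvt : ∀ y : ℝ≥0, ∃ k, y < v k := by
    intro y
    obtain ⟨k, hk⟩ := exists_nat_gt y
    refine ⟨2 * k, ?_⟩
    rw [hv2]
    refine hk.trans (lt_of_le_of_lt ?_ (hLV k))
    exact le_trans le_add_self (hLpos k)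
  have hMv : M < v 0 := by
    have := hv2 0
    rw [mul_zero] at this
    rw [this]
    exact (hLM 0).trans (hLV 0)
  have hs00 : s 0 = q 0 := by have := hs2 0; rwa [mul_zero] at this
  have hFp : IsProbabilityMeasure (mix G s v) :=
    mix_prob hanti htend (by rw [hs00]; have := hqh 0; linarith)
  -- the main property
  have key : ∀ d : ℕ, 2 ≤ d → ∀ n : ℕ, 1 ≤ n → ∀ W : ℕ, ∃ t : ℝ≥0, ∀ m : ℕ, 24 * d * n ≤ m →
      m ≤ W → law d (mix G s v) {τ | t < T τ (axis d 0) (axis d m)} <
            law d (mix G s v) {τ | t < T τ (axis d 0) (axis d n)} := by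
    intro d hd n hn W
    obtain ⟨N, hND, hNn, hNW⟩ : ∃ N, D N = d ∧ n' N = n ∧ W' N = W := by
      refine ⟨Nat.pair (d - 2) (Nat.pair (n - 1) W), ?_, ?_, ?_⟩
      · simp only [D, Nat.unpair_pair]; omega
      · simp only [n', Nat.unpair_pair]; omega
      · simp only [W', Nat.unpair_pair]
    subst hND hNn hNW
    have hF1 : mix G s v (Set.Ici (V N)) = ENNReal.ofReal (q N) := by
      have := mix_Ici hM hanti htend hvmono hMv (2 * N)
      rwa [hv2, hs2] at this
    have hF2 : mix G s v (Set.Ici (2 * V N)) = ENNReal.ofReal (2 * (q N) ^ 2) := by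
      have := mix_Ici hM hanti htend hvmono hMv (2 * N + 1)
      rwa [hv21, hs21] at this
    have hFn : mix G s v {x | (L N < x ∧ x < V N) ∨ (V N < x ∧ x < 2 * V N)} = 0 := by
      apply mix_null hM
      · exact (measurableSet_Ioi.inter measurableSet_Iio).union
          (measurableSet_Ioi.inter measurableSet_Iio)
      · rintro x (⟨h1, -⟩ | ⟨h1, -⟩)
        · exact (hLM N).trans h1
        · exact ((hLM N).trans (hLV N)).trans h1
      · rintro j (⟨h1, h2⟩ | ⟨h1, h2⟩)
        · rw [← hv2 N] at h2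
          have h3 : j < 2 * N := hvmono.lt_iff_lt.1 h2
          obtain ⟨N', hN'⟩ : ∃ N', N = N' + 1 := ⟨N - 1, by omega⟩
          rw [hN', hLs, ← hv21] at h1
          have h4 : 2 * N' + 1 < j := hvmono.lt_iff_lt.1 h1
          omega
        · rw [← hv2 N] at h1
          rw [← hv21 N] at h2
          have h3 := hvmono.lt_iff_lt.1 h1
          have h4 := hvmono.lt_iff_lt.1 h2
          omega
    refine ⟨V N + V N / 2, ?_⟩
    intro m hm1 hm2
    have hcard : (box (axis (D N) 0) (m + 2 * kap (D N) (n' N))).card ≤ c N :=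
      Finset.card_le_card (box_mono (by omega))
    have hVd' : (4 * ((box (axis (D N) 0) (m + 2 * kap (D N) (n' N))).card : ℝ≥0) + 4) * L N
        ≤ V N := by
      rw [hVd N]
      have : ((box (axis (D N) 0) (m + 2 * kap (D N) (n' N))).card : ℝ≥0) ≤ (c N : ℝ≥0) := by
        exact_mod_cast hcard
      gcongr
    exact violation' hd (hone N m hm1 hm2) (hLpos' N) hVd' (hqpos N)
      (by have := hqh N; linarith) (hqq N) hF1 hF2 hFn
  refine ⟨mix G s v, hFp, ?_, mix_Ioi hM hanti htend hvmono hMv hvt hg hsg,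
    fun a => mix_moment hM hanti hs0 hbound a, fun d hd => ⟨key d hd, ?_⟩⟩
  · rw [Measure.le_iff]
    intro X hX
    rw [mix, Measure.add_apply, Measure.smul_apply, Measure.smul_apply, smul_eq_mul, smul_eq_mul]
    refine le_trans ?_ le_self_add
    gcongr
    rw [hs00, hq0]
    exact min_le_right _ _
  · intro N
    obtain ⟨t, ht⟩ := key d hd (N + 1) (by omega) (24 * d * (N + 1))
    have hlt : N + 1 < 24 * d * (N + 1) := by nlinarith
    obtain ⟨j, hj, hj2⟩ := exists_step
      (fun j => law d (mix G s v) {τ | t < T τ (axis d 0) (axis d j)}) hlt (ht _ le_rfl le_rfl)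
    exact ⟨j, by omega, t, hj2⟩

end Pool.Agent.Results.MP_79314c_pr.FailsAgainstAllFarPoints
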